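import Mathlib
import Pool.Agent.Lib.helper23.ZcB

namespace Pool.Agent.Results.MP_26edac_al.NotPolynomial

open Pool.Agent.Lib.H23Zc MvPolynomial

section
variable {k : Type} [Field k] {g : Type} [LieRing g] [LieAlgebra k g] (σ : g →ₗ⁅k⁆ g)

/-- the component in the `+1` eigenspace -/
def ev (x : g) : g := (2 : k)⁻¹ • (x + σ x)

/-- the component in the `-1` eigenspace -/
def od (x : g) : g := (2 : k)⁻¹ • (x - σ x)

/-- the bracket of the contraction -/
def cbr (x y : g) : g := ⁅ev σ x, ev σ y⁆ + ⁅ev σ x, od σ y⁆ + ⁅od σ x, ev σ y⁆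

/-- `P` is the Lie-Poisson bracket of the contraction -/
structure IsLP (P : SymmetricAlgebra k g → SymmetricAlgebra k g → SymmetricAlgebra k g) : Prop where
  skew : ∀ a b, P a b = -P b a
  add : ∀ a b c, P a (b + c) = P a b + P a c
  smul : ∀ (t : k) a b, P a (t • b) = t • P a b
  leib : ∀ a b c, P a (b * c) = P a b * c + b * P a c
  gen : ∀ x y, P (SymmetricAlgebra.ι k g x) (SymmetricAlgebra.ι k g y) =
    SymmetricAlgebra.ι k g (cbr σ x y)

/-- commutative subalgebras -/
def IsComm (P : SymmetricAlgebra k g → SymmetricAlgebra k g → SymmetricAlgebra k g)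
    (B : Subalgebra k (SymmetricAlgebra k g)) : Prop := ∀ a ∈ B, ∀ b ∈ B, P a b = 0

/-- subalgebras generated by algebraically independent elements -/
def IsPolyn (A : Subalgebra k (SymmetricAlgebra k g)) : Prop :=
  ∃ s : Set (SymmetricAlgebra k g),
    AlgebraicIndependent k (Subtype.val : s → SymmetricAlgebra k g) ∧ Algebra.adjoin k s = A

/-- the dimension of the coadjoint stabiliser -/
noncomputable def stabDim (ξ : Module.Dual k g) : ℕ :=
  Module.finrank k (Submodule.span k {x : g | ∀ y, ξ (cbr σ x y) = 0})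

/-- the index of the contraction -/
noncomputable def ind : ℕ := ⨅ ξ, stabDim σ ξ

/-- the ideal of the polynomial functions vanishing on the singular set -/
noncomputable def singIdeal : Ideal (SymmetricAlgebra k g) :=
  ⨅ ξ ∈ {ξ | stabDim σ ξ ≠ ind σ}, RingHom.ker (SymmetricAlgebra.lift ξ)

/-- subalgebras of maximal dimension -/
def MaxDim (A : Subalgebra k (SymmetricAlgebra k g)) : Prop :=
  2 * Algebra.trdeg k A = (Module.finrank k g + ind σ : ℕ)

end

variable {k : Type} [Field k] [CharZero k]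

theorem cbr_eq (x y : Fin 8 → k) : cbr (inv k) x y = br0 x y := by
  have h2 : ∀ t : k, (2 : k)⁻¹ * (t + t) = t := fun t => by field_simp; ring
  have e : ∀ x : Fin 8 → k, (2 : k)⁻¹ • (x + sg x) = ![x 0, x 1, x 2, x 3, 0, 0, 0, 0] := fun x => by
    ext i; rw [Pi.smul_apply, Pi.add_apply]; fin_cases i <;> simp [sg, h2]
  have o : ∀ x : Fin 8 → k, (2 : k)⁻¹ • (x - sg x) = ![0, 0, 0, 0, x 4, x 5, x 6, x 7] := fun x => by
    ext i; rw [Pi.smul_apply, Pi.sub_apply]; fin_cases i <;> simp [sg, h2]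
  have : ∀ a b c d : Fin 8 → k, a = (2 : k)⁻¹ • (x + sg x) → b = (2 : k)⁻¹ • (x - sg x) →
      c = (2 : k)⁻¹ • (y + sg y) → d = (2 : k)⁻¹ • (y - sg y) →
      br a c + br a d + br b c = br0 x y := by
    rintro _ _ _ _ rfl rfl rfl rfl
    rw [e, e, o, o]
    ext i
    fin_cases i <;> simp [br, br0, br1] <;> ring
  exact this _ _ _ _ rfl rfl rfl rfl

noncomputable def bas (k : Type) [Field k] : Module.Basis (Fin 8) k (G k) := Pi.basisFun k (Fin 8)

noncomputable def Φ (k : Type) [Field k] :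
    SymmetricAlgebra k (G k) ≃ₐ[k] MvPolynomial (Fin 8) k := SymmetricAlgebra.equivMvPolynomial (bas k)

omit [CharZero k] in
theorem lin (f : G k →ₗ[k] MvPolynomial (Fin 8) k) (x : Fin 8 → k) :
    f x = ∑ i, C (x i) * f (bas k i) := by
  conv_lhs => rw [← (bas k).sum_repr x]
  simp only [map_sum, map_smul, smul_eq_C_mul]
  rfl

omit [CharZero k] in
theorem Φ_ι (x : Fin 8 → k) : Φ k (SymmetricAlgebra.ι k (G k) x) = ∑ i, C (x i) * X i := by
  refine (lin ((Φ k).toLinearMap ∘ₗ SymmetricAlgebra.ι k (G k)) x).trans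
    (Finset.sum_congr rfl fun i _ => ?_)
  rw [← SymmetricAlgebra.equivMvPolynomial_ι_apply (bas k) i]
  rfl

theorem stab_eq (ξ : Module.Dual k (G k)) :
    stabDim (inv k) ξ = Module.finrank k (St fun i => ξ (bas k i)) := by
  have : {x : G k | ∀ y, ξ (cbr (inv k) x y) = 0} = (St fun i => ξ (bas k i)).carrier := by
    ext x
    refine forall_congr' fun y => ?_
    rw [cbr_eq]
    conv_lhs => rw [← (bas k).sum_repr (br0 x y)]
    simp only [map_sum, map_smul, smul_eq_mul, mul_comm (ξ _)]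
    rfl
  rw [stabDim, this]
  exact congrArg (fun S : Submodule k (Fin 8 → k) => Module.finrank k S) (Submodule.span_eq _)

theorem ind_eq : ind (inv k) = 2 := by
  refine le_antisymm ((ciInf_le (OrderBot.bddBelow _)
    ((bas k).constr k fun _ => (1 : k))).trans ?_) (le_ciInf fun ξ => stab_eq ξ ▸ two_le _)
  rw [stab_eq]
  exact le_two _ (by simp) (by simp)

theorem codim : 3 ≤ (singIdeal (inv k)).height := by
  rw [← RingEquiv.height_comap (Φ k).symm.toRingEquiv]
  refine height_ge _ fun F h => ?_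
  simp only [Ideal.mem_comap, singIdeal, Ideal.mem_iInf, RingHom.mem_ker]
  intro ξ hξ
  have e : (SymmetricAlgebra.lift ξ).comp (Φ k).symm.toAlgHom = aeval fun i => ξ (bas k i) := by
    ext1 i
    simp [Φ]
  exact (AlgHom.congr_fun e F).trans (h _ (by rwa [← stab_eq, ← ind_eq (k := k)]))

noncomputable def PB (k : Type) [Field k] (a b : SymmetricAlgebra k (G k)) :
    SymmetricAlgebra k (G k) := (Φ k).symm (pb (Φ k a) (Φ k b))

theorem isLP : IsLP (inv k) (PB k) := by
  refine ⟨fun a b => ?_, fun a b c => ?_, fun c a b => ?_, fun a b c => ?_, fun x y => ?_⟩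
  · rw [PB, pb_skew, map_neg, PB]
  · simp [PB, pb_add]
  · simp [PB, pb_smul]
  · simp [PB, pb_mul]
  · rw [PB, AlgEquiv.symm_apply_eq, Φ_ι, Φ_ι, Φ_ι, cbr_eq]
    simp [pb, br0, Fin.sum_univ_eight, map_ofNat]
    ring

theorem result : ∀ (k : Type) [Field k] [IsAlgClosed k] [CharZero k],
    ¬ ∀ (g : Type) [LieRing g] [LieAlgebra k g] [Module.Finite k g] [LieAlgebra.IsSimple k g]
      (σ : g →ₗ⁅k⁆ g), (∀ x, σ (σ x) = x) → (∃ x, σ x ≠ x) → 3 ≤ (singIdeal σ).height →
      ∀ P, IsLP σ P → ∀ A, Maximal (IsComm P) A → MaxDim σ A → IsPolyn A := by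
  intro k _ _ _ h
  have := simple (k := k)
  let e := (Φ k).symm.subalgebraMap (cent (Set.range (gen k)))
  have hm : ∀ a, a ∈ (cent (Set.range (gen k))).map (Φ k).symm.toAlgHom ↔
      Φ k a ∈ cent (Set.range (gen k)) := fun a =>
    ⟨fun ⟨b, h1, h2⟩ => by rw [← h2]; simpa using h1, fun h => ⟨_, h, by simp⟩⟩
  obtain ⟨s, s1, s2⟩ := h (G k) (inv k)
    (fun x : Fin 8 → k => show sg (sg x) = x by ext i; fin_cases i <;> simp [sg])
    ⟨bs 4, fun c => by
      have := congrFun (show sg (bs 4) = bs (k := k) 4 from c) 4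
      simp [sg, bs] at this
      norm_num at this⟩
    codim (PB k) isLP ((cent (Set.range (gen k))).map (Φ k).symm.toAlgHom)
    ⟨fun a ha b hb => by simp [PB, cent_comm ((hm a).1 ha) ((hm b).1 hb)],
      fun B hB le b hb => (hm b).2 fun g hg => by
        obtain ⟨i, rfl⟩ := hg
        simpa [PB] using hB _ (le ⟨_, gen_mem i, rfl⟩) b hb⟩
    (by
      rw [MaxDim, ← e.trdeg_eq, cent_trdeg, ind_eq, Module.finrank_eq_card_basis (bas k)]
      norm_num)
  refine cent_not_ufd (k := k) (e.symm.toMulEquiv.uniqueFactorizationMonoid ?_)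
  rw [← s2, ← Subtype.range_coe (s := s)]
  exact s1.aevalEquiv.toMulEquiv.uniqueFactorizationMonoid inferInstance

end Pool.Agent.Results.MP_26edac_al.NotPolynomial
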